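import Mathlib
import Pool.Agent.EMeas.Joint7

/-!
# MP_a49cf6_nt: what a rational or algebraic value of `π + e` would force on `π e`

The last part of `result` is a sharp joint measure for the pair `π + e`, `π e`; the first four
parts are its consequences for one number of the pair when the other one is rational or algebraic.
-/

set_option autoImplicit false

namespace Pool.Agent.Results.MP_a49cf6_nt.JointMeasure

open Polynomial

/-- If `π + e` is rational, then `π e` has irrationality exponent at most `3`, and conversely; if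
one of `π + e`, `π e` is algebraic, the other one is not a Liouville number. These are the cases
`A(π + e) = 0` and `B(π e) = 0` of the last part: for all `m, d ≥ 1` and every `ε > 0` there is
`c > 0` such that for all nonzero integer polynomials `A`, `B` of degree at most `m`, `d`, with
coefficients of absolute value at most `K`, `H`, the larger of `|A(π + e)| / K` and `|B(π e)| / H`
is at least `c (K ^ d H ^ m) ^ (-(2 m d + 1 + ε))`. -/
theorem result :
    (¬ Irrational (Real.pi + Real.exp 1) → ∀ ε : ℝ, 0 < ε → ∃ c : ℝ, 0 < c ∧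
      ∀ r s : ℤ, 0 < s → c * (s : ℝ) ^ (-(3 + ε)) ≤ |Real.pi * Real.exp 1 - r / s|) ∧
    (¬ Irrational (Real.pi * Real.exp 1) → ∀ ε : ℝ, 0 < ε → ∃ c : ℝ, 0 < c ∧
      ∀ p q : ℤ, 0 < q → c * (q : ℝ) ^ (-(3 + ε)) ≤ |Real.pi + Real.exp 1 - p / q|) ∧
    (IsAlgebraic ℤ (Real.pi + Real.exp 1) → ¬ Liouville (Real.pi * Real.exp 1)) ∧
    (IsAlgebraic ℤ (Real.pi * Real.exp 1) → ¬ Liouville (Real.pi + Real.exp 1)) ∧
    ∀ m d : ℕ, 1 ≤ m → 1 ≤ d → ∀ ε : ℝ, 0 < ε → ∃ c : ℝ, 0 < c ∧
      ∀ A B : ℤ[X], A ≠ 0 → B ≠ 0 → A.natDegree ≤ m → B.natDegree ≤ d →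
      ∀ K H : ℝ, (∀ k, |((A.coeff k : ℤ) : ℝ)| ≤ K) → (∀ k, |((B.coeff k : ℤ) : ℝ)| ≤ H) →
      c * (K ^ d * H ^ m) ^ (-(2 * (m : ℝ) * d + 1 + ε)) ≤
        max (|aeval (Real.pi + Real.exp 1) A| / K) (|aeval (Real.pi * Real.exp 1) B| / H) :=
  ⟨Pool.Agent.EMeas.sum_rational, Pool.Agent.EMeas.prod_rational,
    Pool.Agent.EMeas.sum_not_liouville, Pool.Agent.EMeas.prod_not_liouville,
    fun m d hm hd ε hε => Pool.Agent.EMeas.joint m d hm hd ε hε⟩

end Pool.Agent.Results.MP_a49cf6_nt.JointMeasure
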