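import Pool.Agent.Pat7.Main

/-!
The five numbers `π + e`, `π e`, `π ^ e`, `e ^ e`, `π ^ π`: which of them can be rational together, and
what Schanuel's inequality with a defect says about them.
-/

set_option autoImplicit false

namespace Pool.Agent.Results.MP_a49cf6_nt.SchanuelDefect

open Pool.Agent.Pat5 Pool.Agent.Pat6 Pool.Agent.Pat7

/-- The numbers are indexed by `0, 1, 2, 3, 4`. -/
theorem result (x : Fin 5 → ℝ) (hx : x = ![Real.pi + Real.exp 1, Real.pi * Real.exp 1,
      Real.pi ^ Real.exp 1, Real.exp 1 ^ Real.exp 1, Real.pi ^ Real.pi]) :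
    -- the numbers themselves: the set of the rational ones is one of `15` sets, and it has at most
    -- `k` elements if Schanuel's inequality holds with the defect `k`
    (∀ S : Finset (Fin 5), (∀ i, i ∈ S ↔ ∃ q : ℚ, x i = q) →
      S ∈ good ∧ ∀ k, Schanuel Complex.exp k → S.card ≤ k) ∧
    (IsExp Complex.exp Real.pi ∧
      ∀ i, five Complex.exp Real.pi (Real.log Real.pi) i = (x i : ℂ)) ∧
    -- each of the `15` sets `S` belongs to an exponential function near the true one, with the true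
    -- periods, which satisfies the theorems and Schanuel's inequality with the defect `#S`
    (∀ S ∈ good, ∀ (F : Finset ℂ) (ε : ℝ), 0 < ε → ∃ (E : ℂ → ℂ) (l : ℝ), IsExp E Real.pi ∧
      E l = Real.pi ∧ Theorems E ∧ Matrices E ∧ Gel E ∧ Extra E Real.pi ∧ Schanuel E S.card ∧
      Relative E (seven E Real.pi l) ∧ (S ∈ strong → LogIndep E) ∧
      (∀ i ∈ S, ∃ q : ℚ, five E Real.pi l i = q) ∧
      (∀ i ∉ S, Transcendental ℚ (five E Real.pi l i)) ∧
      |l - Real.log Real.pi| < ε ∧
      (∀ i, ‖five E Real.pi l i - (x i : ℂ)‖ < ε) ∧ ∀ a ∈ F, ‖E a - Complex.exp a‖ < ε) ∧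
    -- the other sets are excluded by the theorems, and the defect is optimal
    (∀ (E : ℂ → ℂ) (l : ℝ), IsExp E Real.pi → E l = Real.pi → Real.pi * E 1 ≠ 1 → Theorems E →
      ∀ S : Finset (Fin 5), (∀ i, i ∈ S ↔ ∃ q : ℚ, five E Real.pi l i = q) →
        S ∈ good ∧ (LogIndep E → S ∈ strong) ∧ ∀ k, Schanuel E k → S.card ≤ k) :=
  pi_hierarchy x hx

end Pool.Agent.Results.MP_a49cf6_nt.SchanuelDefect
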