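import Mathlib
import Pool.Agent.K3EE.Final

/-!
# MP_a49cf6_nt: `e ^ e` is not a power of a ratio of two integers with a small difference
-/

set_option autoImplicit false

namespace Pool.Agent.Results.MP_a49cf6_nt.SmallDifference

/-- Let `a > b ≥ 1` and `n` be integers with `e ^ e = (a / b) ^ n`. Then `a - b ≥ 3` and
`log b ≤ 10 ^ 6 (a - b) ^ 6 (log (a - b + 1)) ^ 2`. -/
theorem result (a b n : ℕ) (hb : 0 < b) (hab : b < a)
    (h : Real.exp 1 ^ Real.exp 1 = ((a : ℝ) / (b : ℝ)) ^ n) :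
    3 ≤ a - b ∧
      Real.log (b : ℝ) ≤
        10 ^ 6 * ((a : ℝ) - (b : ℝ)) ^ 6 * Real.log ((a : ℝ) - (b : ℝ) + 1) ^ 2 :=
  ⟨Pool.Agent.K3EE.three_le a b n hb hab h, Pool.Agent.K3EE.main_bound a b n hb hab h⟩

end Pool.Agent.Results.MP_a49cf6_nt.SmallDifference
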