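import Mathlib
import Pool.Agent.SharpSix.Fin1
import Pool.Agent.BakerH.Five

/-!
At least two of the five numbers `π + e`, `π e`, `π ^ e`, `e ^ e`, `π ^ π` are transcendental, and
at least three of them are irrational, except possibly if `π ^ e`, `e ^ e`, `π ^ π` are all three
rational. More precisely: if `e ^ e` is algebraic, then `a π + b e` is transcendental for all
algebraic `a` and `b` which are not both zero; none of the sets `{π e, π ^ e, e ^ e}`,
`{π e, e ^ e, π ^ π}` consists of algebraic numbers only; if only two of the five numbers are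
transcendental, then `π ^ e` and `π ^ π` are algebraic and `π + e` and `π e` are irrational; and if
`π ^ e`, `e ^ e`, `π ^ π` are all three algebraic, then there is at most one linear relation, over
the rational numbers, between `1`, `π`, `e`, `e log π` and `π log π` over the algebraic numbers.
-/

set_option autoImplicit false

namespace Pool.Agent.Results.MP_a49cf6_nt.TwoTranscendental

open Real

/-- The main result, for `x = (π + e, π e, π ^ e, e ^ e, π ^ π)`. -/
theorem result (x : Fin 5 → ℝ) (hx : x = ![π + exp 1, π * exp 1, π ^ exp 1, exp 1 ^ exp 1,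
      π ^ π]) :
    2 ≤ {i | Transcendental ℚ (x i)}.ncard ∧
    ({i | Transcendental ℚ (x i)}.ncard = 2 →
      IsAlgebraic ℚ (π ^ exp 1) ∧ IsAlgebraic ℚ (π ^ π) ∧
        Irrational (π + exp 1) ∧ Irrational (π * exp 1)) ∧
    (3 ≤ {i | Irrational (x i)}.ncard ∨
      (¬ Irrational (π ^ exp 1) ∧ ¬ Irrational (exp 1 ^ exp 1) ∧
        ¬ Irrational (π ^ π) ∧ Transcendental ℚ (π + exp 1) ∧
        Transcendental ℚ (π * exp 1))) ∧
    -- three sets of the numbers with a transcendental element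
    (IsAlgebraic ℚ (exp 1 ^ exp 1) → ∀ a b : ℂ, IsAlgebraic ℚ a → IsAlgebraic ℚ b →
      a ≠ 0 ∨ b ≠ 0 → Transcendental ℚ (a * π + b * exp 1)) ∧
    ¬ (IsAlgebraic ℚ (π * exp 1) ∧ IsAlgebraic ℚ (π ^ exp 1) ∧
      IsAlgebraic ℚ (exp 1 ^ exp 1)) ∧
    ¬ (IsAlgebraic ℚ (π * exp 1) ∧ IsAlgebraic ℚ (exp 1 ^ exp 1) ∧ IsAlgebraic ℚ (π ^ π)) ∧
    -- the exceptional case
    (IsAlgebraic ℚ (π ^ exp 1) → IsAlgebraic ℚ (exp 1 ^ exp 1) → IsAlgebraic ℚ (π ^ π) →
      ∀ a b c d : ℂ, IsAlgebraic ℚ a → IsAlgebraic ℚ b → IsAlgebraic ℚ c → IsAlgebraic ℚ d →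
        a ≠ 0 ∨ b ≠ 0 ∨ c ≠ 0 ∨ d ≠ 0 →
        Transcendental ℚ (a * π + b * exp 1 + c * (exp 1 * log π : ℝ) + d * (π * log π : ℝ)) ∨
        (a = 0 ∧ d ≠ 0 ∧ (∃ q : ℚ, b = q * d) ∧ (∃ q : ℚ, c = q * d) ∧
          b * exp 1 + c * (exp 1 * log π : ℝ) + d * (π * log π : ℝ) = 0)) := by
  have hAD : IsAlgebraic ℚ (π + exp 1) → IsAlgebraic ℚ (exp 1 ^ exp 1) → False := by
    intro hA hD
    apply BakerH.of_D hD (a := 1) (b := 1) isAlgebraic_one isAlgebraic_one
      (Or.inl one_ne_zero)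
    rw [one_mul, one_mul, ← Complex.ofReal_add]
    exact BakerK.isAlgebraic_ofReal hA
  have h := SharpSix.five_of_AD hAD x hx
  have e0 : x 0 = π + exp 1 := by rw [hx]; rfl
  have e1 : x 1 = π * exp 1 := by rw [hx]; rfl
  have e2 : x 2 = π ^ exp 1 := by rw [hx]; rfl
  have e3 : x 3 = exp 1 ^ exp 1 := by rw [hx]; rfl
  have e4 : x 4 = π ^ π := by rw [hx]; rfl
  rw [e0, e1, e2, e3, e4] at h
  exact ⟨h.1, h.2.1, h.2.2, fun hD a b ha hb hne => BakerH.of_D hD ha hb hne,
    fun h => SharpSix.not_BCD_alg h.1 h.2.1 h.2.2,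
    fun h => SharpSix.not_BDE_alg h.1 h.2.1 h.2.2,
    fun hC hD hE a b c d ha hb hc hd hne => BakerH.of_CDE hC hD hE ha hb hc hd hne⟩

end Pool.Agent.Results.MP_a49cf6_nt.TwoTranscendental
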